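import Pool.Agent.W634.AT.Space

/-! Over a stationary set the space is partitioned, for every countable family of open covers, into
countably many pieces each of which lies in one member of each of the covers. -/

set_option autoImplicit false

namespace Pool.Agent.W634.AT

open Set TopologicalSpace

variable {ι : Type} [LinearOrder ι] [WellFoundedLT ι] {T : Type}

omit [WellFoundedLT ι] in
/-- The nodes of large height are covered by the basic neighbourhoods of nodes of bounded height. -/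
theorem bounded_cover (hu : ∀ A : Set ι, A.Countable → ∃ b, ∀ a ∈ A, a < b)
    (A : Tree ι T) (S : Set ι) (hS : Stat S) (ξ : T → ι)
    (hξ : ∀ t, A.ht t ∈ S → Lim (A.ht t) → ξ t < A.ht t) :
    ∃ α, ∀ x, α ≤ A.ht x → ∃ t, A.ht t < α ∧ A.ht t ∈ S ∧ Lim (A.ht t) ∧ x ∈ A.N t (ξ t) := by
  by_contra hcon
  push Not at hcon
  choose x hx1 hx2 using hcon
  -- nodes below unboundedly many of the `x α`
  let B : Set T := {y | ∀ β, ∃ α, β < α ∧ A.le y (x α)}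
  have hB : ∀ δ, ∃ y ∈ B, A.ht y = δ := by
    intro δ
    by_contra hc
    push Not at hc
    have h1 : ∀ y ∈ {t | A.ht t = δ}, ∃ β, ∀ α, β < α → ¬ A.le y (x α) := by
      intro y hy
      by_contra h2
      push Not at h2
      exact hc y h2 hy
    have : Nonempty ι := ⟨δ⟩
    choose! β hβ using h1
    obtain ⟨b, hb⟩ := hu _ (((A.level δ).image β).insert δ)
    obtain ⟨y, hy1, hy2⟩ := A.restr (x b) δ ((hb δ (mem_insert _ _)).le.trans (hx1 b))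
    refine hβ y hy1 b (hb _ (Or.inr ⟨y, hy1, rfl⟩)) ⟨?_, ?_⟩
    · rw [hy1]; exact (hb δ (mem_insert _ _)).le.trans (hx1 b)
    · rw [hy1]; exact hy2
  -- key property
  have key : ∀ t ∈ B, A.ht t ∈ S → Lim (A.ht t) → ∀ u ∈ B, A.ht t ≤ A.ht u →
      A.ag (ξ t) t u → A.le t u := by
    intro t _ h1 h2 u hu' h3 h4
    by_contra h5
    obtain ⟨α, h6, h7⟩ := hu' (A.ht t)
    refine hx2 α t h6 h1 h2 (Or.inr ⟨?_, ?_, ?_⟩)
    · exact (hξ t h1 h2).trans (h6.trans_le (hx1 α))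
    · exact A.trans _ _ _ _ h4 (A.anti _ _ _ _ ((hξ t h1 h2).le.trans h3) h7.2)
    · intro h8
      apply h5
      refine ⟨h3, A.trans _ _ _ _ h8.2 (A.symm _ _ _ (A.anti _ _ _ _ h3 h7.2))⟩
  obtain ⟨v, hv⟩ := pressing hu hS (fun β => {t | A.ht t = β}) A.level
    (fun δ v => ∃ t ∈ B, A.ht t = δ ∧ A.ht v = ξ t ∧ A.ag (ξ t) v t) (by
      intro δ hδ hL
      obtain ⟨t, ht, hδt⟩ := hB δ
      subst hδt
      have h1 := hξ t hδ hL
      obtain ⟨v, hv1, hv2⟩ := A.restr t (ξ t) h1.le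
      exact ⟨ξ t, h1, v, hv1, t, ht, rfl, hv1, hv2⟩)
  let C : Set T := {t | t ∈ B ∧ A.ht t ∈ S ∧ Lim (A.ht t) ∧ A.ht v = ξ t ∧ A.ag (ξ t) v t}
  obtain ⟨b, hb⟩ := A.nochain C (by
    rintro s ⟨h1, h2, h3, h4, h5⟩ t ⟨h6, h7, h8, h9, h10⟩ h11
    refine (key s h1 h2 h3 t h6 h11.le ?_).2
    have h12 : ξ s = ξ t := by rw [← h4, h9]
    exact A.trans _ _ _ _ (A.symm _ _ _ h5) (by rw [h12]; exact h10))
  obtain ⟨δ, h1, h2, h3, t, h4, h5, h6, h7⟩ := hv b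
  subst h5
  exact lt_asymm h2 (hb t ⟨h4, h1, h3, h6, h7⟩)

/-- The pieces. -/
theorem exists_pieces (hc : ∀ a : ι, (Iio a).Countable)
    (hu : ∀ A : Set ι, A.Countable → ∃ b, ∀ a ∈ A, a < b)
    (A : Tree ι T) (S : Set ι) (hS : Stat S) (𝒰 : ℕ → Set (Set (Sp A S)))
    (ho : ∀ n, ∀ U ∈ 𝒰 n, IsOpen U) (hcov : ∀ n x, ∃ U ∈ 𝒰 n, x ∈ U) :
    ∃ P : ℕ → Set (Sp A S), (∀ x, ∃ k, x ∈ P k) ∧ ∀ n k, ∃ U ∈ 𝒰 n, P k ⊆ U := by
  classical
  have hι : Nonempty ι := by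
    obtain ⟨b, _⟩ := hu ∅ countable_empty
    exact ⟨b⟩
  have h1 : ∀ n, ∀ t : T, ∃ ξ : ι, (A.ht t ∈ S → Lim (A.ht t) →
      ξ < A.ht t ∧ ∃ U ∈ 𝒰 n, A.N t ξ ⊆ U) := by
    intro n t
    by_cases h : A.ht t ∈ S ∧ Lim (A.ht t)
    · obtain ⟨U, hU, htU⟩ := hcov n t
      obtain ⟨ξ, h2, h3⟩ := ho n U hU t htU h.1 h.2
      exact ⟨ξ, fun _ _ => ⟨h2, U, hU, h3⟩⟩
    · exact ⟨Classical.arbitrary ι, fun h2 h3 => absurd ⟨h2, h3⟩ h⟩
  choose ξ hξ using h1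
  have h2 : ∀ n, ∃ α, ∀ x, α ≤ A.ht x →
      ∃ t, A.ht t < α ∧ A.ht t ∈ S ∧ Lim (A.ht t) ∧ x ∈ A.N t (ξ n t) := fun n =>
    bounded_cover hu A S hS (ξ n) fun t h3 h4 => (hξ n t h3 h4).1
  choose α hα using h2
  obtain ⟨β, hβ⟩ := hu _ (countable_range α)
  have hβ' : ∀ n, α n < β := fun n => hβ _ ⟨n, rfl⟩
  -- the pieces
  let Q : T → Set T := fun y => if A.ht y = β then {x | A.le y x} else {y}
  let K : Set T := {y | A.ht y ≤ β}
  have hK : K.Countable := by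
    have : K ⊆ ⋃ δ ∈ insert β (Iio β), {t | A.ht t = δ} := by
      intro y hy
      rw [mem_iUnion₂]
      exact ⟨A.ht y, (eq_or_lt_of_le hy).imp id id, rfl⟩
    exact (((hc β).insert β).biUnion fun δ _ => A.level δ).mono this
  have hQ : ∀ n, ∀ y ∈ K, ∃ U ∈ 𝒰 n, Q y ⊆ U := by
    intro n y hy
    by_cases hyβ : A.ht y = β
    · obtain ⟨t, h3, h4, h5, h6⟩ := hα n y (by rw [hyβ]; exact (hβ' n).le)
      obtain ⟨h7, U, hU, hNU⟩ := hξ n t h4 h5
      refine ⟨U, hU, fun x hx => hNU ?_⟩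
      simp only [Q, hyβ, if_true] at hx
      have hle : A.le y x := hx
      have hlt : A.ht t < A.ht y := by rw [hyβ]; exact h3.trans (hβ' n)
      have hyt : y ≠ t := by
        rintro rfl
        exact lt_irrefl _ hlt
      rcases h6 with h6 | ⟨h8, h9, h10⟩
      · exact absurd h6 hyt
      · refine Or.inr ⟨h8.trans_le hle.1, ?_, fun h11 => h10 ⟨hlt.le, ?_⟩⟩
        · exact A.trans _ _ _ _ h9 (A.anti _ _ _ _ h8.le hle.2)
        · exact A.trans _ _ _ _ h11.2 (A.symm _ _ _ (A.anti _ _ _ _ hlt.le hle.2))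
    · obtain ⟨U, hU, hyU⟩ := hcov n y
      refine ⟨U, hU, ?_⟩
      simp only [Q, hyβ, if_false]
      exact singleton_subset_iff.mpr hyU
  have hKne : K.Nonempty := by
    obtain ⟨t, ht⟩ := A.tall β
    exact ⟨t, ht.le⟩
  obtain ⟨f, hf⟩ := hK.exists_eq_range hKne
  have hfK : ∀ k, f k ∈ K := fun k => by rw [hf]; exact mem_range_self k
  refine ⟨fun k => Q (f k), ?_, fun n k => hQ n (f k) (hfK k)⟩
  intro x
  have : ∃ y ∈ K, x ∈ Q y := by
    rcases le_or_gt β (A.ht x) with h | h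
    · obtain ⟨y, h3, h4⟩ := A.restr x β h
      refine ⟨y, h3.le, ?_⟩
      simp only [Q, h3, if_true]
      refine ⟨by rw [h3]; exact h, by rw [h3]; exact h4⟩
    · refine ⟨x, h.le, ?_⟩
      simp only [Q, ne_of_lt h, if_false]
      rfl
  obtain ⟨y, hy, hxy⟩ := this
  rw [hf] at hy
  obtain ⟨k, rfl⟩ := hy
  exact ⟨k, hxy⟩

end Pool.Agent.W634.AT
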