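import Pool.Agent.W634.AT.Tree

/-! The topology on an Aronszajn tree in which the nodes whose height is not in `S` are isolated. -/

set_option autoImplicit false

namespace Pool.Agent.W634.AT

open Set TopologicalSpace

variable {ι : Type} [LinearOrder ι] {T : Type}

/-- the tree order -/
def Tree.le (A : Tree ι T) (t x : T) : Prop := A.ht t ≤ A.ht x ∧ A.ag (A.ht t) t x

/-- basic neighbourhoods of `t`: the nodes above `t | ξ` which are not above `t`, and `t` -/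
def Tree.N (A : Tree ι T) (t : T) (ξ : ι) : Set T :=
  {x | x = t ∨ (ξ < A.ht x ∧ A.ag ξ t x ∧ ¬ A.le t x)}

/-- open sets -/
def Tree.op (A : Tree ι T) (S : Set ι) (U : Set T) : Prop :=
  ∀ t ∈ U, A.ht t ∈ S → Lim (A.ht t) → ∃ ξ < A.ht t, A.N t ξ ⊆ U

theorem Tree.self_mem_N (A : Tree ι T) (t : T) (ξ : ι) : t ∈ A.N t ξ := Or.inl rfl

theorem Tree.N_anti (A : Tree ι T) (t : T) {ξ η : ι} (h : ξ ≤ η) : A.N t η ⊆ A.N t ξ := by
  rintro x (hx | ⟨h1, h2, h3⟩)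
  · exact Or.inl hx
  · exact Or.inr ⟨h.trans_lt h1, A.anti _ _ _ _ h h2, h3⟩

theorem Tree.ag_of_mem (A : Tree ι T) {t x : T} {ξ : ι} (h : x ∈ A.N t ξ) : A.ag ξ t x := by
  rcases h with h | h
  · rw [h]; exact A.refl _ _
  · exact h.2.1

/-- the space -/
def Sp (_ : Tree ι T) (_ : Set ι) : Type := T

instance (A : Tree ι T) (S : Set ι) : TopologicalSpace (Sp A S) where
  IsOpen U := A.op S U
  isOpen_univ := by
    intro t _ _ hL
    obtain ⟨a, ha⟩ := hL.1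
    exact ⟨a, ha, subset_univ _⟩
  isOpen_inter := by
    intro U V hU hV t ht hS hL
    obtain ⟨ξ, h1, h2⟩ := hU t ht.1 hS hL
    obtain ⟨η, h3, h4⟩ := hV t ht.2 hS hL
    exact ⟨max ξ η, max_lt h1 h3, subset_inter ((A.N_anti t (le_max_left _ _)).trans h2)
      ((A.N_anti t (le_max_right _ _)).trans h4)⟩
  isOpen_sUnion := by
    intro 𝒰 h𝒰 t ht hS hL
    obtain ⟨U, hU, htU⟩ := ht
    obtain ⟨ξ, h1, h2⟩ := h𝒰 U hU t htU hS hL
    exact ⟨ξ, h1, h2.trans (subset_sUnion_of_mem hU)⟩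

theorem isOpen_def (A : Tree ι T) (S : Set ι) (U : Set (Sp A S)) : IsOpen U ↔ A.op S U := Iff.rfl

/-- incomparable nodes split -/
theorem Tree.split (A : Tree ι T) (s t : T) (hL : Lim (A.ht s)) (h1 : ¬ A.le s t)
    (h2 : ¬ A.le t s) : ∃ η < A.ht s, η ≤ A.ht t ∧ ¬ A.ag η s t := by
  rcases le_or_gt (A.ht s) (A.ht t) with h | h
  · have h3 : ¬ A.ag (A.ht s) s t := fun h4 => h1 ⟨h, h4⟩
    by_contra hcon
    push Not at hcon
    exact h3 (A.cont _ _ _ hL fun η hη => hcon η hη (hη.le.trans h))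
  · refine ⟨A.ht t, h, le_refl _, fun h4 => h2 ⟨h.le, A.symm _ _ _ h4⟩⟩

theorem Tree.N_open (A : Tree ι T) (S : Set ι) (t : T) (ξ : ι) (hξ : ξ < A.ht t) :
    A.op S (A.N t ξ) := by
  rintro s hs hS hL
  rcases hs with rfl | ⟨h1, h2, h3⟩
  · exact ⟨ξ, hξ, subset_rfl⟩
  · by_cases h4 : A.le s t
    · refine ⟨ξ, h1, ?_⟩
      rintro x (rfl | ⟨h5, h6, h7⟩)
      · exact Or.inr ⟨h1, h2, h3⟩
      · refine Or.inr ⟨h5, A.trans _ _ _ _ h2 h6, fun h8 => h7 ⟨h4.1.trans h8.1, ?_⟩⟩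
        exact A.trans _ _ _ _ h4.2 (A.anti _ _ _ _ h4.1 h8.2)
    · obtain ⟨η, h5, h6, h7⟩ := A.split s t hL h4 h3
      refine ⟨max ξ η, max_lt h1 h5, ?_⟩
      rintro x (rfl | ⟨h8, h9, h10⟩)
      · exact Or.inr ⟨h1, h2, h3⟩
      · refine Or.inr ⟨(le_max_left _ _).trans_lt h8,
          A.trans _ _ _ _ h2 (A.anti _ _ _ _ (le_max_left _ _) h9), fun h11 => h7 ?_⟩
        exact A.trans _ _ _ _ (A.anti _ _ _ _ (le_max_right _ _) h9)
          (A.symm _ _ _ (A.anti _ _ _ _ h6 h11.2))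

theorem Tree.N_disj (A : Tree ι T) (s t : T) (ξ : ι) (hs : s ∉ A.N t ξ)
    (hξ : ξ < A.ht t) (hL : Lim (A.ht s)) : ∃ η < A.ht s, Disjoint (A.N s η) (A.N t ξ) := by
  have hne : s ≠ t := fun h => hs (Or.inl h)
  have hn : ¬ (ξ < A.ht s ∧ A.ag ξ t s ∧ ¬ A.le t s) := fun h => hs (Or.inr h)
  by_cases h1 : A.le t s
  · have h2 : A.ht t < A.ht s := by
      refine lt_of_le_of_ne h1.1 fun h => hne ?_
      exact (A.eq t s h h1.2).symm
    refine ⟨A.ht t, h2, ?_⟩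
    rw [Set.disjoint_left]
    rintro x (rfl | ⟨h3, h4, h5⟩) hx
    · exact hs hx
    · have h6 : A.le t x := ⟨h3.le, A.trans _ _ _ _ h1.2 h4⟩
      rcases hx with rfl | hx
      · exact lt_irrefl _ h3
      · exact hx.2.2 h6
  · rcases le_or_gt (A.ht s) ξ with h2 | h2
    · by_cases h3 : A.le s t
      · obtain ⟨η, hη⟩ := hL.1
        refine ⟨η, hη, ?_⟩
        rw [Set.disjoint_left]
        rintro x (rfl | ⟨h4, h5, h6⟩) hx
        · exact hs hx
        · apply h6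
          rcases hx with rfl | ⟨h7, h8, h9⟩
          · exact h3
          · exact ⟨h2.trans h7.le, A.trans _ _ _ _ h3.2 (A.anti _ _ _ _ h2 h8)⟩
      · obtain ⟨η, h5, h6, h7⟩ := A.split s t hL h3 h1
        refine ⟨η, h5, ?_⟩
        rw [Set.disjoint_left]
        intro x hx1 hx2
        apply h7
        exact A.trans _ _ _ _ (A.ag_of_mem hx1)
          (A.symm _ _ _ (A.anti _ _ _ _ (h5.le.trans h2) (A.ag_of_mem hx2)))
    · have h3 : ¬ A.ag ξ t s := fun h => hn ⟨h2, h, h1⟩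
      refine ⟨ξ, h2, ?_⟩
      rw [Set.disjoint_left]
      intro x hx1 hx2
      exact h3 (A.trans _ _ _ _ (A.ag_of_mem hx2) (A.symm _ _ _ (A.ag_of_mem hx1)))

theorem Tree.not_mem_N (A : Tree ι T) (s t : T) (hne : s ≠ t) (hL : Lim (A.ht s)) :
    ∃ η < A.ht s, t ∉ A.N s η := by
  by_cases h1 : A.le s t
  · obtain ⟨η, hη⟩ := hL.1
    refine ⟨η, hη, ?_⟩
    rintro (h | h)
    · exact hne h.symm
    · exact h.2.2 h1
  · rcases le_or_gt (A.ht s) (A.ht t) with h2 | h2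
    · have h3 : ¬ A.ag (A.ht s) s t := fun h => h1 ⟨h2, h⟩
      by_contra hcon
      push Not at hcon
      exact h3 (A.cont _ _ _ hL fun η hη => A.ag_of_mem (hcon η hη))
    · refine ⟨A.ht t, h2, ?_⟩
      rintro (h | h)
      · exact hne h.symm
      · exact lt_irrefl _ h.1

/-- complements of points are open -/
theorem Tree.compl_open (A : Tree ι T) (S : Set ι) (t : T) : A.op S {t}ᶜ := by
  intro s hs _ hL
  obtain ⟨η, h1, h2⟩ := A.not_mem_N s t hs hL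
  refine ⟨η, h1, fun x hx hxt => h2 ?_⟩
  rw [mem_singleton_iff] at hxt
  rwa [← hxt]

theorem Tree.singleton_open (A : Tree ι T) (S : Set ι) (t : T)
    (h : ¬ (A.ht t ∈ S ∧ Lim (A.ht t))) : A.op S {t} := by
  intro s hs hS hL
  rw [mem_singleton_iff] at hs
  subst hs
  exact absurd ⟨hS, hL⟩ h

/-- clopen neighbourhoods -/
theorem exists_clopen (A : Tree ι T) (S : Set ι) (U : Set (Sp A S)) (hU : IsOpen U)
    (t : Sp A S) (ht : t ∈ U) : ∃ V : Set (Sp A S), IsClopen V ∧ t ∈ V ∧ V ⊆ U := by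
  by_cases h : A.ht t ∈ S ∧ Lim (A.ht t)
  · obtain ⟨ξ, h1, h2⟩ := hU t ht h.1 h.2
    refine ⟨A.N t ξ, ⟨?_, A.N_open S t ξ h1⟩, A.self_mem_N t ξ, h2⟩
    refine isOpen_compl_iff.mp ?_
    intro s hs _ hL
    obtain ⟨η, h3, h4⟩ := A.N_disj s t ξ hs h1 hL
    exact ⟨η, h3, fun x hx hx' => Set.disjoint_left.mp h4 hx hx'⟩
  · refine ⟨{t}, ⟨?_, A.singleton_open S t h⟩, rfl, by simpa using ht⟩
    exact isOpen_compl_iff.mp (A.compl_open S t)

instance (A : Tree ι T) (S : Set ι) : T2Space (Sp A S) := by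
  refine ⟨fun s t hst => ?_⟩
  obtain ⟨V, h1, h2, h3⟩ := exists_clopen A S {t}ᶜ (A.compl_open S t) s hst
  exact ⟨V, Vᶜ, h1.isOpen, h1.compl.isOpen, h2, fun h => h3 h rfl, disjoint_compl_right⟩

/-- separation of points in the two topologies -/
theorem Tree.sep (A : Tree ι T) (S S' : Set ι) (hd : Disjoint S S') (t s : T) :
    ∃ U V : Set T, A.op S U ∧ A.op S' V ∧ t ∈ U ∧ s ∈ V ∧ (U ∩ V).Finite := by
  by_cases h1 : A.ht t ∈ S ∧ Lim (A.ht t)
  · by_cases h2 : A.ht s ∈ S' ∧ Lim (A.ht s)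
    · have hne : s ≠ t := by
        rintro rfl
        exact Set.disjoint_left.mp hd h1.1 h2.1
      obtain ⟨ξ, h3, h4⟩ := A.not_mem_N t s hne.symm h1.2
      obtain ⟨η, h5, h6⟩ := A.N_disj s t ξ h4 h3 h2.2
      refine ⟨A.N t ξ, A.N s η, A.N_open S t ξ h3, A.N_open S' s η h5, A.self_mem_N _ _,
        A.self_mem_N _ _, ?_⟩
      rw [h6.symm.inter_eq]
      exact Set.finite_empty
    · refine ⟨univ, {s}, ?_, A.singleton_open S' s h2, mem_univ _, rfl, ?_⟩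
      · exact (isOpen_univ : IsOpen (univ : Set (Sp A S)))
      · exact (Set.finite_singleton s).subset inter_subset_right
  · refine ⟨{t}, univ, A.singleton_open S t h1, ?_, rfl, mem_univ _, ?_⟩
    · exact (isOpen_univ : IsOpen (univ : Set (Sp A S')))
    · exact (Set.finite_singleton t).subset inter_subset_left

end Pool.Agent.W634.AT
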