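import Mathlib

/-! Stationary subsets of a well order of type `ω₁`: pressing down, and two disjoint stationary
sets. -/

set_option autoImplicit false

namespace Pool.Agent.W634.AT

open Set

variable {ι : Type} [LinearOrder ι] [WellFoundedLT ι]

/-- Limit element. -/
def Lim (δ : ι) : Prop := (∃ a, a < δ) ∧ ∀ a < δ, ∃ b, a < b ∧ b < δ

/-- `S` contains a limit point closed under any given function: `S` is stationary. -/
def Stat (S : Set ι) : Prop := ∀ g : ι → ι, ∃ δ ∈ S, Lim δ ∧ ∀ a < δ, g a < δ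

/-- The least upper bound of a strictly increasing sequence. -/
theorem exists_lub (hu : ∀ A : Set ι, A.Countable → ∃ b, ∀ a ∈ A, a < b)
    (s : ℕ → ι) (hs : ∀ n, s n < s (n + 1)) :
    ∃ δ, Lim δ ∧ (∀ n, s n < δ) ∧ ∀ a < δ, ∃ n, a ≤ s n := by
  have hne : {δ : ι | ∀ n, s n < δ}.Nonempty := by
    obtain ⟨b, hb⟩ := hu (range s) (countable_range s)
    exact ⟨b, fun n => hb _ ⟨n, rfl⟩⟩
  obtain ⟨δ, hδ, hmin⟩ := WellFounded.has_min (wellFounded_lt (α := ι)) _ hne
  have h1 : ∀ a < δ, ∃ n, a ≤ s n := by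
    intro a ha
    by_contra hcon
    push Not at hcon
    exact hmin a hcon ha
  refine ⟨δ, ⟨⟨s 0, hδ 0⟩, ?_⟩, hδ, h1⟩
  intro a ha
  obtain ⟨n, hn⟩ := h1 a ha
  exact ⟨s (n + 1), lt_of_le_of_lt hn (hs n), hδ (n + 1)⟩

omit [WellFoundedLT ι] in
/-- Pressing down on a stationary set. -/
theorem pressing
    (hu : ∀ A : Set ι, A.Countable → ∃ b, ∀ a ∈ A, a < b) {S : Set ι} (hS : Stat S)
    {E : Type*} (Es : ι → Set E) (hEs : ∀ a, (Es a).Countable) (R : ι → E → Prop)
    (hf : ∀ δ ∈ S, Lim δ → ∃ β < δ, ∃ e ∈ Es β, R δ e) :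
    ∃ e, ∀ b, ∃ δ ∈ S, b < δ ∧ Lim δ ∧ R δ e := by
  by_contra hcon
  push Not at hcon
  choose B hB using hcon
  have hg : ∀ β : ι, ∃ g : ι, ∀ e ∈ Es β, B e < g := by
    intro β
    obtain ⟨g, hg⟩ := hu _ ((hEs β).image B)
    exact ⟨g, fun e he => hg _ (mem_image_of_mem B he)⟩
  choose g hg using hg
  obtain ⟨δ, hδS, hL, hcl⟩ := hS g
  obtain ⟨β, hβ, e, he, hR⟩ := hf δ hδS hL
  exact hB e δ hδS ((hg β e he).trans (hcl β hβ)) hL hR

/-- There are two disjoint stationary sets. -/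
theorem exists_disjoint_stat (hc : ∀ a : ι, (Iio a).Countable)
    (hu : ∀ A : Set ι, A.Countable → ∃ b, ∀ a ∈ A, a < b) :
    ∃ S S' : Set ι, Stat S ∧ Stat S' ∧ Disjoint S S' := by
  classical
  have hunc : ¬ (univ : Set ι).Countable := by
    intro h
    obtain ⟨b, hb⟩ := hu _ h
    exact lt_irrefl b (hb b (mem_univ b))
  have hf : ∀ α : ι, ∃ f : ι → ℕ, InjOn f (Iio α) := fun α =>
    Set.countable_iff_exists_injOn.mp (hc α)
  choose f hf using hf
  let A : ℕ → ι → Set ι := fun n ξ => {α | ξ < α ∧ f α ξ = n}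
  have hst : ∀ ξ : ι, ∃ n, Stat (A n ξ) := by
    intro ξ
    by_contra hcon
    push Not at hcon
    simp only [Stat, not_forall] at hcon
    choose g hg using hcon
    have hG : ∀ a : ι, ∃ b : ι, a < b ∧ ∀ a' ≤ a, ∀ n, g n a' < b := by
      intro a
      have hcount : (insert a (⋃ n, g n '' (insert a (Iio a)))).Countable := by
        apply Countable.insert
        exact countable_iUnion fun n => ((hc a).insert a).image _
      obtain ⟨b, hb⟩ := hu _ hcount
      refine ⟨b, hb a (mem_insert _ _), fun a' ha' n => hb _ ?_⟩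
      right
      rw [mem_iUnion]
      refine ⟨n, mem_image_of_mem _ ?_⟩
      rcases eq_or_lt_of_le ha' with h | h
      · exact Or.inl h
      · exact Or.inr h
    choose G hG1 hG2 using hG
    let s : ℕ → ι := fun n => G^[n] ξ
    have hs : ∀ n, s (n + 1) = G (s n) := fun n => Function.iterate_succ_apply' G n _
    obtain ⟨δ, hL, hlt, hcof⟩ := exists_lub hu s (fun n => by rw [hs]; exact hG1 _)
    refine hg (f δ ξ) ⟨δ, ⟨hlt 0, rfl⟩, hL, fun a ha => ?_⟩
    obtain ⟨n, hn⟩ := hcof a ha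
    calc g (f δ ξ) a < G (s n) := hG2 (s n) a hn _
      _ = s (n + 1) := (hs n).symm
      _ < δ := hlt _
  choose n hn using hst
  have hninj : ¬ Function.Injective n := by
    intro hinj
    exact hunc (Set.countable_univ_iff.mpr hinj.countable)
  simp only [Function.Injective, not_forall] at hninj
  obtain ⟨ξ, ξ', h1, h2⟩ := hninj
  refine ⟨A (n ξ) ξ, A (n ξ') ξ', hn ξ, hn ξ', ?_⟩
  rw [Set.disjoint_left]
  rintro α ⟨h3, h4⟩ ⟨h5, h6⟩
  apply h2
  exact hf α h3 h5 (by rw [h4, h6, h1])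

end Pool.Agent.W634.AT
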