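import Pool.Agent.W634.AT.Stat
import Pool.Agent.Helper539.AuerWalk
import Pool.Agent.Helper761.Omega1

/-! A tree with countable levels and without uncountable chains, given by its heights and the
relations `agree ξ s t` (`s` and `t` have the same restriction to `ξ`). -/

set_option autoImplicit false

namespace Pool.Agent.W634.AT

open Set

/-- An Aronszajn tree on the well order `ι`. -/
structure Tree (ι : Type) [LinearOrder ι] (T : Type) where
  ht : T → ι
  ag : ι → T → T → Prop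
  refl : ∀ ξ t, ag ξ t t
  symm : ∀ ξ s t, ag ξ s t → ag ξ t s
  trans : ∀ ξ s t u, ag ξ s t → ag ξ t u → ag ξ s u
  anti : ∀ ξ η s t, η ≤ ξ → ag ξ s t → ag η s t
  cont : ∀ ξ s t, Lim ξ → (∀ η < ξ, ag η s t) → ag ξ s t
  eq : ∀ s t, ht s = ht t → ag (ht s) s t → s = t
  level : ∀ ξ, {t | ht t = ξ}.Countable
  restr : ∀ t ξ, ξ ≤ ht t → ∃ s, ht s = ξ ∧ ag ξ s t
  tall : ∀ ξ, ∃ t, ht t = ξ
  nochain : ∀ C : Set T, (∀ s ∈ C, ∀ t ∈ C, ht s < ht t → ag (ht s) s t) →
    ∃ b, ∀ t ∈ C, ht t < b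

variable {ι : Type} [LinearOrder ι] [WellFoundedLT ι]

/-- existence -/
theorem exists_tree (hc : ∀ a : ι, (Iio a).Countable)
    (hu : ∀ A : Set ι, A.Countable → ∃ b, ∀ a ∈ A, a < b) :
    ∃ T : Type, Nonempty (Tree ι T) := by
  classical
  obtain ⟨e, he1, he2⟩ := Pool.Agent.Helper539.Auer.exists_coherent_injections hc
  have hunc : ¬ (univ : Set ι).Countable := by
    intro h
    obtain ⟨b, hb⟩ := hu _ h
    exact lt_irrefl b (hb b (mem_univ b))
  let cut : ι → (ι → ℕ) → ι → ℕ := fun d g ξ => if ξ < d then g ξ else 0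
  let T : Type := {p : ι × (ι → ℕ) // ∃ a, p.1 ≤ a ∧ p.2 = cut p.1 (e a)}
  refine ⟨T, ⟨{
    ht := fun p => p.1.1
    ag := fun ξ p q => ∀ η < ξ, p.1.2 η = q.1.2 η
    refl := fun ξ t η _ => rfl
    symm := fun ξ s t h η hη => (h η hη).symm
    trans := fun ξ s t u h1 h2 η hη => (h1 η hη).trans (h2 η hη)
    anti := fun ξ η s t h1 h2 ζ hζ => h2 ζ (hζ.trans_le h1)
    cont := ?_
    eq := ?_
    level := ?_
    restr := ?_
    tall := ?_
    nochain := ?_ }⟩⟩
  · intro ξ s t hξ h η hη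
    obtain ⟨b, hb1, hb2⟩ := hξ.2 η hη
    exact h b hb2 η hb1
  · rintro ⟨⟨d, g⟩, a, ha, hg⟩ ⟨⟨d', g'⟩, a', ha', hg'⟩ h1 h2
    simp only at h1 h2 hg hg' ⊢
    subst h1
    have : g = g' := by
      funext η
      by_cases hη : η < d
      · exact h2 η hη
      · rw [hg, hg']; simp [cut, hη]
    subst this
    rfl
  · intro ξ
    have h := he2 ξ
    refine Set.MapsTo.countable_of_injOn (f := fun p : T => fun η : Iio ξ => p.1.2 η.1)
      ?_ ?_ h
    · rintro ⟨⟨d, g⟩, a, ha, hg⟩ hd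
      simp only [Set.mem_ofPred_eq] at hd
      subst hd
      refine ⟨⟨a, ha⟩, ?_⟩
      funext η
      have hη : η.1 < d := η.2
      simp only at hg
      simp [hg, cut, hη]
    · rintro ⟨⟨d, g⟩, a, ha, hg⟩ hd ⟨⟨d', g'⟩, a', ha', hg'⟩ hd' h2
      simp only [Set.mem_ofPred_eq] at hd hd'
      subst hd
      subst hd'
      have : g = g' := by
        funext η
        by_cases hη : η < d'
        · exact congrFun h2 ⟨η, hη⟩
        · simp only at hg hg'
          rw [hg, hg']; simp [cut, hη]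
      subst this
      rfl
  · rintro ⟨⟨d, g⟩, a, ha, hg⟩ ξ hξ
    simp only at hξ hg
    refine ⟨⟨(ξ, cut ξ (e a)), a, hξ.trans ha, rfl⟩, rfl, ?_⟩
    intro η hη
    simp only [hg, cut, hη, hη.trans_le hξ, if_true]
  · intro ξ
    exact ⟨⟨(ξ, cut ξ (e ξ)), ξ, le_refl _, rfl⟩, rfl⟩
  · intro C hC
    by_contra hcon
    push Not at hcon
    choose F hF1 hF2 using hcon
    -- the branch
    obtain ⟨suc, hsuc⟩ : ∃ suc : ι → ι, ∀ ξ, ξ < suc ξ := by
      have : ∀ ξ : ι, ∃ b, ξ < b := fun ξ => by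
        obtain ⟨b, hb⟩ := hu {ξ} (countable_singleton ξ)
        exact ⟨b, hb ξ rfl⟩
      exact ⟨fun ξ => (this ξ).choose, fun ξ => (this ξ).choose_spec⟩
    let h : ι → ℕ := fun ξ => (F (suc ξ)).1.2 ξ
    have key : ∀ s ∈ C, ∀ t ∈ C, ∀ ξ, ξ < s.1.1 → ξ < t.1.1 → s.1.2 ξ = t.1.2 ξ := by
      intro s hs t ht ξ h1 h2
      rcases lt_trichotomy s.1.1 t.1.1 with h3 | h3 | h3
      · exact hC s hs t ht h3 ξ h1
      · -- same height: compare with a higher element
        obtain ⟨u, hu1⟩ : ∃ u ∈ C, s.1.1 < u.1.1 := by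
          obtain ⟨b, hb⟩ := hu {s.1.1} (countable_singleton _)
          exact ⟨F b, hF1 b, (hb _ rfl).trans_le (hF2 b)⟩
        have h4 := hC s hs u hu1.1 hu1.2 ξ h1
        have h5 := hC t ht u hu1.1 (by change t.1.1 < u.1.1; rw [← h3]; exact hu1.2) ξ h2
        exact h4.trans h5.symm
      · exact (hC t ht s hs h3 ξ h2).symm
    have hinj : Function.Injective h := by
      intro ξ ξ' hh
      by_contra hne
      -- a common element above both
      obtain ⟨b, hb⟩ := hu {ξ, ξ'} ((Set.countable_singleton ξ').insert ξ)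
      have hb1 : ξ < (F b).1.1 := (hb ξ (by simp)).trans_le (hF2 b)
      have hb2 : ξ' < (F b).1.1 := (hb ξ' (by simp)).trans_le (hF2 b)
      have e1 : h ξ = (F b).1.2 ξ := key _ (hF1 _) _ (hF1 _) ξ ((hsuc ξ).trans_le (hF2 _)) hb1
      have e2 : h ξ' = (F b).1.2 ξ' := key _ (hF1 _) _ (hF1 _) ξ' ((hsuc ξ').trans_le (hF2 _)) hb2
      have h3 : (F b).1.2 ξ = (F b).1.2 ξ' := by rw [← e1, ← e2, hh]
      obtain ⟨a, ha, hg⟩ := (F b).2
      rw [hg] at h3
      simp only [cut, hb1, hb2, if_true] at h3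
      exact hne (he1 a (hb1.trans_le ha) (hb2.trans_le ha) h3)
    exact hunc (Set.countable_univ_iff.mpr hinj.countable)

end Pool.Agent.W634.AT
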